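import Pool.Agent.ZES.StmtsZ

set_option autoImplicit false

/-!
# Squad ZES (MP_160b6c_nt), row JAC: choice of r functions
-/

namespace Pool.Agent.ZES.H11

open Pool.Agent.ZES

theorem jac : JacStmt := by
  classical
  intro V _ _ _ A S r hr hdif x hx
  -- the linear map
  let Φ : A →ₗ[ℂ] Module.Dual ℂ ↥S :=
    { toFun := fun f => (fderiv ℂ (f : V → ℂ) x : V →ₗ[ℂ] ℂ).comp S.subtype
      map_add' := by
        intro f g
        have h : fderiv ℂ (((f + g : ↥A) : V → ℂ)) x = fderiv ℂ (f : V → ℂ) x +
            fderiv ℂ (g : V → ℂ) x := by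
          have := fderiv_add (hdif f.1 f.2).differentiableAt
            (hdif g.1 g.2).differentiableAt (x := x)
          exact this
        ext v
        simp only [LinearMap.comp_apply, LinearMap.add_apply, ContinuousLinearMap.coe_coe, h,
          ContinuousLinearMap.add_apply]
      map_smul' := by
        intro c f
        have h : fderiv ℂ (((c • f : ↥A) : V → ℂ)) x = c • fderiv ℂ (f : V → ℂ) x := by
          have := fderiv_const_smul (hdif f.1 f.2).differentiableAt (x := x) c
          exact this
        ext v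
        simp only [LinearMap.comp_apply, LinearMap.smul_apply, ContinuousLinearMap.coe_coe, h,
          ContinuousLinearMap.smul_apply, RingHom.id_apply] }
  have hΦ : ∀ (f : ↥A) (v : ↥S), Φ f v = fderiv ℂ (f : V → ℂ) x v := fun f v => rfl
  have hco : (LinearMap.range Φ).dualCoannihilator = ⊥ := by
    rw [eq_bot_iff]
    intro v hv
    rw [Submodule.mem_dualCoannihilator] at hv
    rw [Submodule.mem_bot]
    apply Subtype.ext
    refine hx v.1 v.2 (fun f hf => ?_)
    exact hv (Φ ⟨f, hf⟩) ⟨⟨f, hf⟩, rfl⟩
  have htop : LinearMap.range Φ = ⊤ := by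
    have h := Subspace.dualCoannihilator_dualAnnihilator_eq (W := LinearMap.range Φ)
    rw [hco, Submodule.dualAnnihilator_bot] at h
    exact h.symm
  have hsur : Function.Surjective Φ := LinearMap.range_eq_top.1 htop
  let b := Module.finBasisOfFinrankEq ℂ ↥S hr.symm
  choose f hf using fun i : Fin r => hsur (b.coord i)
  refine ⟨fun i => (f i : V → ℂ), fun i => (f i).2, ?_⟩
  intro v hv h0
  have h1 : ∀ i, b.coord i ⟨v, hv⟩ = 0 := by
    intro i
    rw [← hf i, hΦ]
    exact h0 i
  have h2 : (⟨v, hv⟩ : ↥S) = 0 := (b.forall_coord_eq_zero_iff).1 h1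
  exact congrArg Subtype.val h2

end Pool.Agent.ZES.H11
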